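import Pool.Agent.Helper7.OP.Cuts1
import Pool.Agent.Helper51.OP.N2

/-!
# MP_2214fc_al : module N1 (automorphisms of minimal height are signed permutations)
-/

set_option autoImplicit false

open Finset

namespace Pool.Agent.Helper42.OP

open Pool.Agent.Helper96.OP
open Pool.Agent.Helper7.OP Pool.Agent.Helper51.OP

variable {ι : Type} [DecidableEq ι] [Fintype ι]

/-- finite coboundary -/
def FC (K : Set (FreeGroup ι)) : Prop :=
  ∀ w : FreeGroup ι, {g : FreeGroup ι | ¬ (g ∈ K ↔ g * w ∈ K)}.Finite

lemma FC_hs (A : Finset (Option (Ltr ι))) : FC (hs A) := fun w => cut_finite w A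

omit [DecidableEq ι] [Fintype ι] in
lemma FC_smul {K : Set (FreeGroup ι)} (hK : FC K) (b : FreeGroup ι) : FC {g | b * g ∈ K} := by
  intro w
  have : {g : FreeGroup ι | ¬ (g ∈ {g | b * g ∈ K} ↔ g * w ∈ {g | b * g ∈ K})} =
      (fun g => b * g) ⁻¹' {g | ¬ (g ∈ K ↔ g * w ∈ K)} := by
    ext g
    simp [mul_assoc]
  rw [this]
  exact (hK w).preimage (mul_right_injective b).injOn

omit [DecidableEq ι] [Fintype ι] in
lemma FC_aut {K : Set (FreeGroup ι)} (hK : FC K) (α : MulAut (FreeGroup ι)) :
    FC {g | α g ∈ K} := by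
  intro w
  have : {g : FreeGroup ι | ¬ (g ∈ {g | α g ∈ K} ↔ g * w ∈ {g | α g ∈ K})} =
      α ⁻¹' {g | ¬ (g ∈ K ↔ g * α w ∈ K)} := by
    ext g
    simp
  rw [this]
  exact (hK _).preimage α.injective.injOn

omit [DecidableEq ι] [Fintype ι] in
lemma FC_compl {K : Set (FreeGroup ι)} (hK : FC K) : FC Kᶜ := by
  intro w
  refine (hK w).subset fun g hg => ?_
  simp only [Set.mem_ofPred_eq, Set.mem_compl_iff] at hg ⊢
  tauto

omit [DecidableEq ι] [Fintype ι] in
lemma FC_union {K L : Set (FreeGroup ι)} (hK : FC K) (hL : FC L) : FC (K ∪ L) := by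
  intro w
  refine ((hK w).union (hL w)).subset fun g hg => ?_
  simp only [Set.mem_ofPred_eq, Set.mem_union] at hg ⊢
  tauto

lemma red_sub {α : Type} {L L' : List (α × Bool)} (h : FreeGroup.IsReduced L)
    (h' : L' <:+: L) : FreeGroup.IsReduced L' := by
  obtain ⟨s, t, rfl⟩ := h'
  have h1 : List.IsChain (fun a b : α × Bool => a.1 = b.1 → a.2 = b.2) (s ++ L' ++ t) := h
  exact h1.left_of_append.right_of_append

lemma eq_nil_or_append {α : Type} (L : List α) : L = [] ∨ ∃ L' y, L = L' ++ [y] := by
  rcases L.eq_nil_or_concat with h | ⟨L', y, h⟩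
  · exact Or.inl h
  · exact Or.inr ⟨L', y, by rw [h]; simp⟩

/-- membership depends on the first `N` letters -/
def Tame (N : ℕ) (K : Set (FreeGroup ι)) : Prop :=
  ∀ g : FreeGroup ι, N ≤ g.toWord.length → (g ∈ K ↔ FreeGroup.mk (g.toWord.take N) ∈ K)

omit [Fintype ι] in
lemma toWord_mk' {L : List (Ltr ι)} (h : FreeGroup.IsReduced L) : (FreeGroup.mk L).toWord = L := by
  rw [FreeGroup.toWord_mk, h.reduce_eq]

omit [DecidableEq ι] [Fintype ι] in
lemma mk_append_singleton (L : List (Ltr ι)) (y : Ltr ι) :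
    FreeGroup.mk (L ++ [y]) = FreeGroup.mk L * el y := by
  rw [el, FreeGroup.mul_mk]

lemma exists_tame {K : Set (FreeGroup ι)} (hK : FC K) : ∃ N, 1 ≤ N ∧ Tame N K := by
  have hfin : (⋃ y : Ltr ι, {g : FreeGroup ι | ¬ (g ∈ K ↔ g * el y ∈ K)}).Finite :=
    Set.finite_iUnion fun y => hK (el y)
  obtain ⟨N, hN⟩ := (hfin.image fun g : FreeGroup ι => g.toWord.length).bddAbove
  have h1 : ∀ g : FreeGroup ι, N + 1 ≤ g.toWord.length → ∀ y, (g ∈ K ↔ g * el y ∈ K) := by
    intro g hg y
    by_contra h
    have := hN (Set.mem_image_of_mem (fun g : FreeGroup ι => g.toWord.length)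
      (Set.mem_iUnion.2 ⟨y, h⟩))
    omega
  refine ⟨N + 1, by omega, ?_⟩
  have key : ∀ (n : ℕ) (L : List (Ltr ι)), L.length = N + 1 + n → FreeGroup.IsReduced L →
      (FreeGroup.mk L ∈ K ↔ FreeGroup.mk (L.take (N + 1)) ∈ K) := by
    intro n
    induction n with
    | zero =>
      intro L hL _
      rw [List.take_of_length_le (by omega)]
    | succ n ih =>
      intro L hL hr
      rcases eq_nil_or_append L with rfl | ⟨L', y, rfl⟩
      · simp at hL
      · rw [List.length_append, List.length_singleton] at hL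
        have hr' : FreeGroup.IsReduced L' := red_sub hr ⟨[], [y], by simp⟩
        have h2 := h1 (FreeGroup.mk L') (by rw [toWord_mk' hr']; omega) y
        rw [mk_append_singleton, ← h2, ih L' (by omega) hr', List.take_append_of_le_length (by omega)]
  intro g hg
  have := key (g.toWord.length - (N + 1)) g.toWord (by omega) FreeGroup.isReduced_toWord
  rwa [FreeGroup.mk_toWord] at this

/-- the branch of words beginning with `L` (`L` reduced, with last letter `z`) -/
def Br (L : List (Ltr ι)) (z : Ltr ι) : Set (FreeGroup ι) :=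
  {g | (FreeGroup.mk L)⁻¹ * g ∈ hs {some (inv z)}ᶜ}

omit [DecidableEq ι] [Fintype ι] in
lemma isReduced_append {L R : List (Ltr ι)} {z : Ltr ι} (hL : FreeGroup.IsReduced (L ++ [z]))
    (hR : FreeGroup.IsReduced R) (h : R.head? ≠ some (inv z)) :
    FreeGroup.IsReduced (L ++ [z] ++ R) := by
  cases R with
  | nil => simpa using hL
  | cons y R =>
    apply FreeGroup.IsReduced.append_overlap (L₂ := [z]) hL _ (by simp)
    rw [List.singleton_append, FreeGroup.isReduced_cons_cons]
    refine ⟨fun h1 => ?_, hR⟩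
    rcases eq_or_eq_inv h1 with h2 | h2
    · rw [h2]
    · exfalso
      apply h
      simp only [List.head?_cons]
      rw [h2, inv_inv]

lemma mem_Br {L : List (Ltr ι)} {z : Ltr ι} (hL : FreeGroup.IsReduced (L ++ [z]))
    (g : FreeGroup ι) : g ∈ Br (L ++ [z]) z ↔ L ++ [z] <+: g.toWord := by
  unfold Br
  simp only [Set.mem_ofPred_eq, hs, Finset.mem_compl, Finset.mem_singleton, fl]
  constructor
  · intro h
    set v := (FreeGroup.mk (L ++ [z]))⁻¹ * g with hv
    have hg : g = FreeGroup.mk (L ++ [z]) * v := by rw [hv]; group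
    refine ⟨v.toWord, ?_⟩
    have h2 : (FreeGroup.mk (L ++ [z] ++ v.toWord)).toWord = L ++ [z] ++ v.toWord :=
      toWord_mk' (isReduced_append hL FreeGroup.isReduced_toWord h)
    rw [← FreeGroup.mul_mk, FreeGroup.mk_toWord, ← hg] at h2
    exact h2.symm
  · rintro ⟨R, hR⟩ h
    have hgr : FreeGroup.IsReduced (L ++ [z] ++ R) := by
      rw [hR]; exact FreeGroup.isReduced_toWord
    have hRr : FreeGroup.IsReduced R := red_sub hgr ⟨L ++ [z], [], by simp⟩
    have hv : (FreeGroup.mk (L ++ [z]))⁻¹ * g = FreeGroup.mk R := by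
      rw [← FreeGroup.mk_toWord (x := g), ← hR, ← FreeGroup.mul_mk (L₁ := L ++ [z])]
      group
    rw [hv, toWord_mk' hRr] at h
    cases R with
    | nil => simp at h
    | cons y R =>
      simp only [List.head?_cons, Option.some.injEq] at h
      subst h
      have h3 : FreeGroup.IsReduced (z :: inv z :: R) :=
        red_sub hgr ⟨L, [], by simp⟩
      rw [FreeGroup.isReduced_cons_cons] at h3
      have := h3.1 rfl
      simp [inv] at this

lemma cut_Br (w : ι → FreeGroup ι) (L : List (Ltr ι)) (z : Ltr ι) :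
    cut w (Br L z) = cut w (hs {some z}) := by
  unfold Br
  rw [cut_smul w (hs {some (inv z)}ᶜ), cut_hs_compl, cut_hs_inv]

lemma FC_Br (L : List (Ltr ι)) (z : Ltr ι) : FC (Br L z) := FC_smul (FC_hs _) _

/-- one step -/
lemma one_step (w : ι → FreeGroup ι)
    (hstar : ∀ a A, Adm a A → cut w (hs {some a}) ≤ cut w (hs A))
    {K : Set (FreeGroup ι)} (hK : FC K) (L : List (Ltr ι)) (z : Ltr ι)
    (A : Finset (Option (Ltr ι))) (hz : some (inv z) ∉ A)
    (hA : K ∩ Br L z = {g | (FreeGroup.mk L)⁻¹ * g ∈ hs A}) :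
    (some z ∈ A → FC (K ∪ Br L z) ∧ cut w (K ∪ Br L z) ≤ cut w K) ∧
      (some z ∉ A → FC (K \ Br L z) ∧ cut w (K \ Br L z) ≤ cut w K) := by
  constructor
  · intro hzA
    refine ⟨FC_union hK (FC_Br L z), ?_⟩
    have h1 := cut_submod w K (Br L z) (fun i => hK _) (fun i => FC_Br L z _)
    have h2 : cut w (K ∩ Br L z) = cut w (hs A) := by
      rw [hA, cut_smul]
    rw [h2, cut_Br] at h1
    have h3 := hstar z A ⟨hzA, hz⟩
    omega
  · intro hzA
    have e : K \ Br L z = (Kᶜ ∪ Br L z)ᶜ := by
      ext g; simp [Set.mem_sdiff]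
    have hF : FC (Kᶜ ∪ Br L z) := FC_union (FC_compl hK) (FC_Br L z)
    refine ⟨by rw [e]; exact FC_compl hF, ?_⟩
    rw [e, cut_compl, ← cut_compl w K]
    have h1 := cut_submod w Kᶜ (Br L z) (fun i => FC_compl hK _) (fun i => FC_Br L z _)
    have h2 : cut w (Kᶜ ∩ Br L z) = cut w (hs ({some (inv z)}ᶜ \ A)) := by
      have : Kᶜ ∩ Br L z = {g | (FreeGroup.mk L)⁻¹ * g ∈ hs ({some (inv z)}ᶜ \ A)} := by
        ext g
        have h4 : g ∈ K ∩ Br L z ↔ (FreeGroup.mk L)⁻¹ * g ∈ hs A := by rw [hA]; rfl
        have h5 : g ∈ Br L z ↔ (FreeGroup.mk L)⁻¹ * g ∈ hs {some (inv z)}ᶜ := Iff.rfl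
        simp only [hs, Set.mem_inter_iff, Set.mem_compl_iff, Set.mem_ofPred_eq, Finset.mem_sdiff,
          Finset.mem_compl] at h4 h5 ⊢
        tauto
      rw [this, cut_smul]
    rw [h2, cut_Br] at h1
    have h3 := hstar z ({some (inv z)}ᶜ \ A) ⟨by simp [hzA, ne_inv], by simp⟩
    omega

/-- the coarsened set -/
def coarse (N : ℕ) (K : Set (FreeGroup ι)) (S : Set (List (Ltr ι))) : Set (FreeGroup ι) :=
  {g | (N ≤ g.toWord.length ∧ g.toWord.take N ∈ S ∧
      ∃ L z, g.toWord.take N = L ++ [z] ∧ FreeGroup.mk (L ++ [z] ++ [z]) ∈ K) ∨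
    (¬ (N ≤ g.toWord.length ∧ g.toWord.take N ∈ S) ∧ g ∈ K)}

omit [Fintype ι] in
lemma coarse_pos {N : ℕ} {K : Set (FreeGroup ι)} {S : Set (List (Ltr ι))} {g : FreeGroup ι}
    (h1 : N ≤ g.toWord.length) (h2 : g.toWord.take N ∈ S) : g ∈ coarse N K S ↔
      ∃ L z, g.toWord.take N = L ++ [z] ∧ FreeGroup.mk (L ++ [z] ++ [z]) ∈ K := by
  constructor
  · rintro (⟨_, _, h⟩ | ⟨h, _⟩)
    · exact h
    · exact absurd ⟨h1, h2⟩ h
  · exact fun h => Or.inl ⟨h1, h2, h⟩

omit [Fintype ι] in
lemma coarse_neg {N : ℕ} {K : Set (FreeGroup ι)} {S : Set (List (Ltr ι))} {g : FreeGroup ι}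
    (h : ¬ (N ≤ g.toWord.length ∧ g.toWord.take N ∈ S)) : g ∈ coarse N K S ↔ g ∈ K := by
  constructor
  · rintro (⟨h1, h2, _⟩ | ⟨_, h'⟩)
    · exact absurd ⟨h1, h2⟩ h
    · exact h'
  · exact fun h' => Or.inr ⟨h, h'⟩

omit [Fintype ι] in
lemma coarse_insert {N : ℕ} {K : Set (FreeGroup ι)} {S : Set (List (Ltr ι))} {g : FreeGroup ι}
    {M : List (Ltr ι)} (h : ¬ (N ≤ g.toWord.length ∧ g.toWord.take N = M)) :
    g ∈ coarse N K (insert M S) ↔ g ∈ coarse N K S := by
  by_cases h1 : N ≤ g.toWord.length ∧ g.toWord.take N ∈ S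
  · rw [coarse_pos h1.1 h1.2, coarse_pos h1.1 (Set.mem_insert_of_mem _ h1.2)]
  · rw [coarse_neg h1, coarse_neg]
    rintro ⟨h2, h3 | h3⟩
    · exact h ⟨h2, h3⟩
    · exact h1 ⟨h2, h3⟩

lemma coarse_step (w : ι → FreeGroup ι)
    (hstar : ∀ a A, Adm a A → cut w (hs {some a}) ≤ cut w (hs A))
    {N : ℕ} (hN : 1 ≤ N) {K : Set (FreeGroup ι)} (hT : Tame (N + 1) K)
    (S : Set (List (Ltr ι))) (M : List (Ltr ι)) (hM : M.length = N) (hMS : M ∉ S)
    (hF : FC (coarse N K S)) :
    FC (coarse N K (insert M S)) ∧ cut w (coarse N K (insert M S)) ≤ cut w (coarse N K S) := by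
  by_cases hr : FreeGroup.IsReduced M
  · obtain ⟨L, z, rfl⟩ : ∃ L z, M = L ++ [z] := by
      rcases eq_nil_or_append M with rfl | ⟨L, z, rfl⟩
      · simp at hM; omega
      · exact ⟨L, z, rfl⟩
    set A : Finset (Option (Ltr ι)) := by
      classical
      exact univ.filter fun o => (o = none ∧ FreeGroup.mk (L ++ [z]) ∈ K) ∨
        ∃ y, o = some y ∧ y ≠ inv z ∧ FreeGroup.mk (L ++ [z] ++ [y]) ∈ K with hAdef
    have hA1 : some (inv z) ∉ A := by
      rw [hAdef]; simp
    have hAz : some z ∈ A ↔ FreeGroup.mk (L ++ [z] ++ [z]) ∈ K := by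
      rw [hAdef]
      simp only [Finset.mem_filter, Finset.mem_univ, true_and, reduceCtorEq, false_and, false_or,
        Option.some.injEq, exists_eq_left']
      constructor
      · exact fun h => h.2
      · exact fun h => ⟨ne_inv z, h⟩
    -- prefix facts
    have hpre : ∀ g : FreeGroup ι, g ∈ Br (L ++ [z]) z ↔
        (N ≤ g.toWord.length ∧ g.toWord.take N = L ++ [z]) := by
      intro g
      rw [mem_Br hr, List.prefix_iff_eq_take, hM]
      constructor
      · intro h
        refine ⟨?_, h.symm⟩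
        have := congrArg List.length h
        rw [hM, List.length_take] at this
        omega
      · exact fun h => h.2.symm
    have hint : coarse N K S ∩ Br (L ++ [z]) z = {g | (FreeGroup.mk (L ++ [z]))⁻¹ * g ∈ hs A} := by
      ext g
      rw [Set.mem_inter_iff]
      by_cases hg : g ∈ Br (L ++ [z]) z
      · obtain ⟨R, hR⟩ := (mem_Br hr g).1 hg
        obtain ⟨hg1, hg2⟩ := (hpre g).1 hg
        have hgr : FreeGroup.IsReduced (L ++ [z] ++ R) := by
          rw [hR]; exact FreeGroup.isReduced_toWord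
        have hRr : FreeGroup.IsReduced R := red_sub hgr ⟨L ++ [z], [], by simp⟩
        have hv : (FreeGroup.mk (L ++ [z]))⁻¹ * g = FreeGroup.mk R := by
          rw [← FreeGroup.mk_toWord (x := g), ← hR, ← FreeGroup.mul_mk (L₁ := L ++ [z])]
          group
        have hgK : g ∈ coarse N K S ↔ g ∈ K := coarse_neg (by
          rw [hg2]; exact fun h => hMS h.2)
        rw [hgK]
        simp only [hg, and_true, Set.mem_ofPred_eq]
        rw [hv]
        simp only [hs, fl, Set.mem_ofPred_eq]
        rw [toWord_mk' hRr, hAdef]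
        simp only [Finset.mem_filter, Finset.mem_univ, true_and]
        cases R with
        | nil =>
          simp only [List.head?_nil, true_and, reduceCtorEq, false_and, exists_false, or_false]
          rw [List.append_nil] at hR
          rw [hR, FreeGroup.mk_toWord]
        | cons y R =>
          have hy : y ≠ inv z := by
            rintro rfl
            have h3 : FreeGroup.IsReduced (z :: inv z :: R) := red_sub hgr ⟨L, [], by simp⟩
            rw [FreeGroup.isReduced_cons_cons] at h3
            have := h3.1 rfl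
            simp [inv] at this
          simp only [List.head?_cons, reduceCtorEq, false_and, false_or, Option.some.injEq,
            exists_eq_left']
          have h4 := hT g (by rw [← hR]; simp at hM ⊢; omega)
          rw [h4]
          have h5 : g.toWord.take (N + 1) = L ++ [z] ++ [y] := by
            rw [← hR, show L ++ [z] ++ y :: R = (L ++ [z] ++ [y]) ++ R by simp,
              List.take_left' (by simp at hM ⊢; omega)]
          rw [h5]
          exact ⟨fun h => ⟨hy, h⟩, fun h => h.2⟩
      · simp only [hg, and_false, false_iff]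
        intro h
        apply hg
        change fl ((FreeGroup.mk (L ++ [z]))⁻¹ * g) ∈ ({some (inv z)}ᶜ : Finset (Option (Ltr ι)))
        rw [Finset.mem_compl, Finset.mem_singleton]
        intro h2
        apply hA1
        rw [← h2]
        exact h
    have hstep := one_step w hstar hF (L ++ [z]) z A hA1 hint
    by_cases hz : some z ∈ A
    · have e : coarse N K (insert (L ++ [z]) S) = coarse N K S ∪ Br (L ++ [z]) z := by
        ext g
        rw [Set.mem_union, hpre g]
        by_cases hg : N ≤ g.toWord.length ∧ g.toWord.take N = L ++ [z]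
        · simp only [hg, and_self, or_true, iff_true]
          rw [coarse_pos hg.1 (by rw [hg.2]; exact Set.mem_insert _ _)]
          exact ⟨L, z, hg.2, hAz.1 hz⟩
        · rw [coarse_insert hg]
          simp only [hg, or_false]
      rw [e]
      exact hstep.1 hz
    · have e : coarse N K (insert (L ++ [z]) S) = coarse N K S \ Br (L ++ [z]) z := by
        ext g
        rw [Set.mem_sdiff, hpre g]
        by_cases hg : N ≤ g.toWord.length ∧ g.toWord.take N = L ++ [z]
        · simp only [hg, and_self, not_true_eq_false, and_false, iff_false]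
          rw [coarse_pos hg.1 (by rw [hg.2]; exact Set.mem_insert _ _)]
          rintro ⟨L', z', h1, h2⟩
          rw [hg.2] at h1
          obtain ⟨rfl, h3⟩ := List.append_inj' h1 rfl
          simp only [List.cons.injEq, and_true] at h3
          subst h3
          exact hz (hAz.2 h2)
        · rw [coarse_insert hg]
          simp only [hg, not_false_eq_true, and_true]
      rw [e]
      exact hstep.2 hz
  · have e : coarse N K (insert M S) = coarse N K S := by
      ext g
      apply coarse_insert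
      rintro ⟨_, rfl⟩
      exact hr (red_sub FreeGroup.isReduced_toWord (List.take_prefix _ _).isInfix)
    rw [e]
    exact ⟨hF, le_rfl⟩

omit [Fintype ι] in
lemma toWord_el_pow (x : Ltr ι) (n : ℕ) : (el x ^ n).toWord = List.replicate n x := by
  rw [FreeGroup.toWord_pow, el, FreeGroup.toWord_mk, FreeGroup.reduce_singleton]
  have : (List.replicate n [x]).flatten = List.replicate n x := by
    induction n with
    | zero => simp
    | succ n ih => simp [List.replicate_succ, ih]
  rw [this, FreeGroup.reduce_replicate]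

lemma coarse_all (w : ι → FreeGroup ι)
    (hstar : ∀ a A, Adm a A → cut w (hs {some a}) ≤ cut w (hs A))
    {N : ℕ} (hN : 1 ≤ N) {K : Set (FreeGroup ι)} (hF : FC K) (hT : Tame (N + 1) K) :
    ∃ K', FC K' ∧ Tame N K' ∧ cut w K' ≤ cut w K ∧
      ∀ x : Ltr ι, el x ^ N ∈ K' ↔ el x ^ (N + 1) ∈ K := by
  classical
  have hfin : {l : List (Ltr ι) | l.length = N}.Finite := List.finite_length_eq _ _
  have key : ∀ S : Finset (List (Ltr ι)), (∀ l ∈ S, l.length = N) →
      FC (coarse N K (S : Set (List (Ltr ι)))) ∧ cut w (coarse N K (S : Set _)) ≤ cut w K := by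
    intro S
    induction S using Finset.induction_on with
    | empty =>
      intro _
      have : coarse N K ((∅ : Finset (List (Ltr ι))) : Set (List (Ltr ι))) = K := by
        ext g; simp [coarse]
      rw [this]
      exact ⟨hF, le_rfl⟩
    | insert M S hM ih =>
      intro hS
      obtain ⟨h1, h2⟩ := ih fun l hl => hS l (Finset.mem_insert_of_mem hl)
      rw [Finset.coe_insert]
      obtain ⟨h3, h4⟩ := coarse_step w hstar hN hT (S : Set _) M (hS M (Finset.mem_insert_self _ _))
        (by simpa using hM) h1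
      exact ⟨h3, h4.trans h2⟩
  obtain ⟨h1, h2⟩ := key hfin.toFinset (by simp)
  rw [Set.Finite.coe_toFinset] at h1 h2
  have hmem : ∀ g : FreeGroup ι, N ≤ g.toWord.length →
      (g ∈ coarse N K {l | l.length = N} ↔
        ∃ L z, g.toWord.take N = L ++ [z] ∧ FreeGroup.mk (L ++ [z] ++ [z]) ∈ K) := by
    intro g hg
    exact coarse_pos hg (by show (g.toWord.take N).length = N; rw [List.length_take]; omega)
  refine ⟨_, h1, ?_, h2, ?_⟩
  · intro g hg
    have hr : FreeGroup.IsReduced (g.toWord.take N) :=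
      red_sub FreeGroup.isReduced_toWord (List.take_prefix _ _).isInfix
    have h5 : (FreeGroup.mk (g.toWord.take N)).toWord = g.toWord.take N := toWord_mk' hr
    rw [hmem g hg, hmem _ (by rw [h5, List.length_take]; omega), h5, List.take_take, min_self]
  · intro x
    rw [hmem _ (by rw [toWord_el_pow, List.length_replicate]), toWord_el_pow,
      List.take_of_length_le (by simp)]
    obtain ⟨n, rfl⟩ : ∃ n, N = n + 1 := ⟨N - 1, by omega⟩
    constructor
    · rintro ⟨L, z, h3, h4⟩
      rw [List.replicate_succ'] at h3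
      obtain ⟨h5, h6⟩ := List.append_inj' h3 rfl
      simp only [List.cons.injEq, and_true] at h6
      subst h6 h5
      rw [← List.replicate_succ', ← List.replicate_succ'] at h4
      rw [← toWord_el_pow, FreeGroup.mk_toWord] at h4
      exact h4
    · intro h
      refine ⟨List.replicate n x, x, List.replicate_succ', ?_⟩
      rw [← List.replicate_succ', ← List.replicate_succ', ← toWord_el_pow, FreeGroup.mk_toWord]
      exact h

lemma claim (w : ι → FreeGroup ι)
    (hstar : ∀ a A, Adm a A → cut w (hs {some a}) ≤ cut w (hs A)) :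
    ∀ (N : ℕ), 1 ≤ N → ∀ K : Set (FreeGroup ι), FC K → Tame N K →
      ∃ A : Finset (Option (Ltr ι)), cut w (hs A) ≤ cut w K ∧ ∀ x, some x ∈ A ↔ el x ^ N ∈ K := by
  intro N hN
  induction N, hN using Nat.le_induction with
  | base =>
    intro K _ hT
    classical
    refine ⟨univ.filter fun o => (o = none ∧ (1 : FreeGroup ι) ∈ K) ∨
      ∃ y, o = some y ∧ el y ∈ K, ?_, ?_⟩
    · apply le_of_eq
      congr 1
      ext g
      simp only [hs, fl, Set.mem_ofPred_eq, Finset.mem_filter, Finset.mem_univ, true_and]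
      rcases h : g.toWord with _ | ⟨y, R⟩
      · have : g = 1 := by rwa [← FreeGroup.toWord_eq_nil_iff]
        subst this
        simp
      · simp only [List.head?_cons, reduceCtorEq, false_and, false_or, Option.some.injEq,
          exists_eq_left']
        rw [hT g (by rw [h]; simp), h]
        simp [el]
    · intro x
      simp only [Finset.mem_filter, Finset.mem_univ, true_and, reduceCtorEq, false_and, false_or,
        Option.some.injEq, exists_eq_left', pow_one]
  | succ N hN ih =>
    intro K hF hT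
    obtain ⟨K', h1, h2, h3, h4⟩ := coarse_all w hstar hN hF hT
    obtain ⟨A, h5, h6⟩ := ih K' h1 h2
    exact ⟨A, h5.trans h3, fun x => (h6 x).trans (h4 x)⟩

lemma cut_of_one (y : Ltr ι) : cut (fun i : ι => FreeGroup.of i) (hs {some y}) = 1 := by
  have h1 : ∀ i : ι, 1 ≤ cut (fun i : ι => FreeGroup.of i) (hs {some (i, true)}) := by
    intro i
    unfold cut
    refine le_trans ?_ (Finset.single_le_sum (f := fun j => {g : FreeGroup ι |
      ¬ (g ∈ hs {some (i, true)} ↔ g * FreeGroup.of j ∈ hs {some (i, true)})}.ncard)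
      (fun _ _ => Nat.zero_le _) (Finset.mem_univ i))
    apply Nat.succ_le_of_lt
    rw [Set.ncard_pos (cut_finite _ _)]
    refine ⟨1, ?_⟩
    simp [hs, fl]
  have h2 := hgt_eq (fun i : ι => FreeGroup.of i)
  have h3 : hgt (fun i : ι => FreeGroup.of i) = ∑ _i : ι, 1 := by
    unfold hgt
    simp
  rw [h3] at h2
  have h4 : ∀ i : ι, cut (fun i : ι => FreeGroup.of i) (hs {some (i, true)}) = 1 := by
    intro i
    exact ((Finset.sum_eq_sum_iff_of_le fun i _ => h1 i).1 h2 i (Finset.mem_univ i)).symm
  obtain ⟨i, b⟩ := y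
  cases b
  · have : ((i, false) : Ltr ι) = inv (i, true) := rfl
    rw [this, cut_hs_inv, h4]
  · exact h4 i

omit [Fintype ι] in
/-- a half space separating the ends of a nontrivial element -/
lemma exists_sep (b : FreeGroup ι) (hb : b ≠ 1) : ∃ (p : FreeGroup ι) (y : Ltr ι), ∀ M, 1 ≤ M →
    fl (p⁻¹ * b ^ M) = some y ∧ fl (p⁻¹ * (b ^ M)⁻¹) ≠ some y := by
  set L := b.toWord with hL
  set p := FreeGroup.reduceCyclically.conjugator L with hp
  set c := FreeGroup.reduceCyclically L with hc
  have hpc : p ++ c ++ FreeGroup.invRev p = L :=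
    FreeGroup.reduceCyclically.conj_conjugator_reduceCyclically L
  have hcr : FreeGroup.IsCyclicallyReduced c :=
    FreeGroup.reduceCyclically.isCyclicallyReduced FreeGroup.isReduced_toWord
  have hc0 : c ≠ [] := by
    intro h
    apply hb
    rw [← FreeGroup.mk_toWord (x := b), ← hL, ← hpc, h, List.append_nil, ← FreeGroup.mul_mk,
      ← FreeGroup.inv_mk, mul_inv_cancel]
  obtain ⟨y, hy⟩ : ∃ y, c.head? = some y := by
    rcases c with _ | ⟨y, c⟩
    · exact absurd rfl hc0
    · exact ⟨y, rfl⟩
  refine ⟨FreeGroup.mk p, y, ?_⟩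
  intro M hM
  obtain ⟨m, rfl⟩ : ∃ m, M = m + 1 := ⟨M - 1, by omega⟩
  have hw : (b ^ (m + 1)).toWord = p ++ (List.replicate (m + 1) c).flatten ++
      FreeGroup.invRev p := by
    rw [FreeGroup.toWord_pow, ← hL]
    exact FreeGroup.reduceCyclically.reduce_flatten_replicate_succ FreeGroup.isReduced_toWord m
  have hw' : ((b ^ (m + 1))⁻¹).toWord = p ++ FreeGroup.invRev (List.replicate (m + 1) c).flatten ++
      FreeGroup.invRev p := by
    rw [FreeGroup.toWord_inv, hw]
    simp [FreeGroup.invRev_append, FreeGroup.invRev_invRev]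
  have hgen : ∀ (g : FreeGroup ι) (C : List (Ltr ι)), g.toWord = p ++ C ++ FreeGroup.invRev p →
      ((FreeGroup.mk p)⁻¹ * g).toWord = C ++ FreeGroup.invRev p := by
    intro g C hg
    have h1 : (FreeGroup.mk p)⁻¹ * g = FreeGroup.mk (C ++ FreeGroup.invRev p) := by
      rw [← FreeGroup.mk_toWord (x := g), hg, List.append_assoc, ← FreeGroup.mul_mk (L₁ := p)]
      group
    rw [h1]
    apply toWord_mk'
    have h2 : FreeGroup.IsReduced (p ++ C ++ FreeGroup.invRev p) := by
      rw [← hg]; exact FreeGroup.isReduced_toWord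
    exact red_sub h2 ⟨p, [], by simp⟩
  constructor
  · unfold fl
    rw [hgen _ _ hw, List.replicate_succ, List.flatten_cons]
    rcases c with _ | ⟨y', c⟩
    · exact absurd rfl hc0
    · simpa using hy
  · unfold fl
    rw [hgen _ _ hw', List.replicate_succ', List.flatten_concat]
    obtain ⟨l, hl⟩ : ∃ l, c.getLast? = some l := by
      rcases eq_nil_or_append c with h | ⟨c', l, h⟩
      · exact absurd h hc0
      · exact ⟨l, by rw [h]; simp⟩
    obtain ⟨c', hc'⟩ : ∃ c', c = c' ++ [l] := by
      rcases eq_nil_or_append c with h | ⟨c', l', h⟩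
      · exact absurd h hc0
      · refine ⟨c', ?_⟩
        rw [h] at hl ⊢
        simp at hl
        simp [hl]
    have h3 := hcr.2 l hl y hy
    rw [hc']
    have h4 : FreeGroup.invRev ((List.replicate m (c' ++ [l])).flatten ++ (c' ++ [l])) =
        inv l :: (FreeGroup.invRev ((List.replicate m (c' ++ [l])).flatten ++ c')) := by
      rw [← List.append_assoc, FreeGroup.invRev_append]
      simp [FreeGroup.invRev, inv]
    rw [h4]
    simp only [List.cons_append, List.head?_cons, ne_eq, Option.some.injEq]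
    intro h5
    subst h5
    have := h3 rfl
    simp [inv] at this

/-- `nielsen_min`, from `hgt_twc` (module C2) as a hypothesis -/
theorem nielsen_min_of (htwc : ∀ (w : ι → FreeGroup ι) (a : Ltr ι) (A : Finset (Option (Ltr ι))),
      Adm a A → hgt (fun i => twc a A (w i)) + cut w (hs {some a}) = hgt w + cut w (hs A))
    (α : MulAut (FreeGroup ι))
    (hmin : ∀ a A, Adm a A → hgt (fun i => α (FreeGroup.of i)) ≤
      hgt (fun i => twc a A (α (FreeGroup.of i)))) : ∃ v : W ι, α = autW v := by
  apply exists_autW_of_hgt_le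
  set w : ι → FreeGroup ι := fun i => α (FreeGroup.of i) with hw
  have hstar : ∀ a A, Adm a A → cut w (hs {some a}) ≤ cut w (hs A) := by
    intro a A hA
    have h1 := htwc w a A hA
    have h2 := hmin a A hA
    change hgt w ≤ hgt (fun i => twc a A (w i)) at h2
    omega
  have hone : ∀ a : Ltr ι, cut w (hs {some a}) ≤ 1 := by
    intro a
    have hb : α.symm (el a) ≠ 1 := by
      intro h
      have h2 : el a = 1 := by
        have := congrArg α h
        rwa [MulEquiv.apply_symm_apply, map_one] at this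
      have h3 := congrArg FreeGroup.toWord h2
      have h4 := toWord_el_pow a 1
      rw [pow_one] at h4
      rw [h4] at h3
      simp at h3
    obtain ⟨p, y, hpy⟩ := exists_sep (α.symm (el a)) hb
    set K : Set (FreeGroup ι) := {g | α.symm g ∈ {h | p⁻¹ * h ∈ hs {some y}}} with hK
    have hF : FC K := FC_aut (FC_smul (FC_hs _) _) α.symm
    obtain ⟨N, hN, hT⟩ := exists_tame hF
    obtain ⟨A, hA1, hA2⟩ := claim w hstar N hN K hF hT
    have hcut : cut w K = 1 := by
      rw [hw, cut_aut (fun i => FreeGroup.of i) K α]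
      have : {g | α g ∈ K} = {g | p⁻¹ * g ∈ hs {some y}} := by
        ext g
        simp [hK]
      rw [this, cut_smul, cut_of_one]
    have h1 : some a ∈ A := by
      rw [hA2]
      show p⁻¹ * α.symm (el a ^ N) ∈ hs {some y}
      rw [map_pow]
      simp only [hs, Set.mem_ofPred_eq, Finset.mem_singleton]
      exact (hpy N hN).1
    have h2 : some (inv a) ∉ A := by
      rw [hA2]
      intro h
      change p⁻¹ * α.symm (el (inv a) ^ N) ∈ hs {some y} at h
      rw [el_inv, inv_pow, map_inv, map_pow] at h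
      simp only [hs, Set.mem_ofPred_eq, Finset.mem_singleton] at h
      exact (hpy N hN).2 h
    have h3 := hstar a A ⟨h1, h2⟩
    omega
  rw [hgt_eq]
  calc ∑ i, cut w (hs {some (i, true)}) ≤ ∑ _i : ι, 1 := Finset.sum_le_sum fun i _ => hone _
    _ = Fintype.card ι := by simp

end Pool.Agent.Helper42.OP
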